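import Pool.Agent.Lib.MP_4fbe7c_an.ND.Iface

/-!
Module MRG of project ND (helper19): the present species, ordered by their rates.
-/

set_option autoImplicit false

open Set

namespace Pool.Agent.Lib.MP_4fbe7c_an.ND.H19

open Pool.Agent.Lib.MP_4fbe7c_an.UL Pool.Agent.Lib.MP_4fbe7c_an.ND

/-- A sorted enumeration of a nonempty finite set (UL/H63, with more properties). -/
theorem sorted_enum {N : ℕ} (d : Fin N → ℝ) (P : Finset (Fin N)) (i₀ : Fin N) (hi : i₀ ∈ P)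
    (hmin : ∀ j, j ≠ i₀ → d i₀ < d j) :
    ∃ (n : ℕ) (σ : ℕ → Fin N), n < N ∧ (∀ k, n < k → σ k = i₀) ∧
      (∀ k, 1 ≤ k → k ≤ n → σ k ≠ i₀) ∧ σ 0 = i₀ ∧ (∀ k, k ≤ n → σ k ∈ P) ∧
      (∀ k, k < n → d (σ k) ≤ d (σ (k + 1))) ∧ (∀ j ∈ P, ∃ k, k ≤ n ∧ σ k = j) ∧
      ∀ g : Fin N → ℝ, ∑ k ∈ Finset.range (n + 1), g (σ k) = ∑ j ∈ P, g j := by
  classical
  obtain ⟨n, hn⟩ : ∃ n, P.card = n + 1 :=
    ⟨P.card - 1, (Nat.succ_pred_eq_of_pos (Finset.card_pos.mpr ⟨i₀, hi⟩)).symm⟩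
  have hnN : n < N := by
    have h1 : P.card ≤ N := by simpa using Finset.card_le_univ P
    omega
  let e : P ≃ Fin (n + 1) := P.equivFinOfCardEq hn
  let f : Fin (n + 1) → ℝ := fun k => d (e.symm k)
  let τ : Equiv.Perm (Fin (n + 1)) := Tuple.sort f
  have hmono : Monotone (f ∘ τ) := Tuple.monotone_sort f
  let E : Fin (n + 1) ≃ P := τ.trans e.symm
  let σ : ℕ → Fin N := fun k => if h : k < n + 1 then (E ⟨k, h⟩ : Fin N) else i₀
  have hσ : ∀ (k : ℕ) (h : k < n + 1), σ k = (E ⟨k, h⟩ : Fin N) := fun k h => dif_pos h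
  have hσ' : ∀ k : ℕ, n < k → σ k = i₀ := fun k h => dif_neg (by omega)
  have hmem : ∀ k, k ≤ n → σ k ∈ P := by
    intro k hk
    rw [hσ k (by omega)]
    exact (E _).2
  have hd : ∀ k l (hk : k < n + 1) (hl : l < n + 1), k ≤ l → d (σ k) ≤ d (σ l) := by
    intro k l hk hl hkl
    rw [hσ k hk, hσ l hl]
    exact hmono (show (⟨k, hk⟩ : Fin (n + 1)) ≤ ⟨l, hl⟩ from hkl)
  have hsurj : ∀ j ∈ P, ∃ k, k ≤ n ∧ σ k = j := by
    intro j hj
    refine ⟨(E.symm ⟨j, hj⟩ : Fin (n + 1)), Nat.lt_succ_iff.mp (E.symm ⟨j, hj⟩).2, ?_⟩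
    rw [hσ _ (E.symm ⟨j, hj⟩).2]
    simp
  have h0 : σ 0 = i₀ := by
    by_contra hne
    obtain ⟨k, hk, hk'⟩ := hsurj i₀ hi
    have h1 := hd 0 k (by omega) (by omega) (Nat.zero_le k)
    rw [hk'] at h1
    linarith [hmin (σ 0) hne]
  have hinj : ∀ k l, k ≤ n → l ≤ n → σ k = σ l → k = l := by
    intro k l hk hl hkl
    rw [hσ k (by omega), hσ l (by omega)] at hkl
    have := E.injective (Subtype.ext hkl)
    simpa using this
  refine ⟨n, σ, hnN, hσ', ?_, h0, hmem, ?_, hsurj, ?_⟩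
  · intro k hk1 hk h1
    have := hinj k 0 hk (Nat.zero_le n) (h1.trans h0.symm)
    omega
  · intro k hk
    exact hd k (k + 1) (by omega) (by omega) (Nat.le_succ k)
  · intro g
    refine Finset.sum_bij (fun k _ => σ k) ?_ ?_ ?_ ?_
    · intro k hk
      exact hmem k (Nat.lt_succ_iff.mp (Finset.mem_range.mp hk))
    · intro k hk l hl hkl
      exact hinj k l (Nat.lt_succ_iff.mp (Finset.mem_range.mp hk))
        (Nat.lt_succ_iff.mp (Finset.mem_range.mp hl)) hkl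
    · intro j hj
      obtain ⟨k, hk, hk'⟩ := hsurj j hj
      exact ⟨k, Finset.mem_range.mpr (by omega), hk'⟩
    · intro k hk
      rfl

/-- MRG: the present species, ordered. -/
theorem mrg_st : MrgNStatement := by
  classical
  intro p Ω q m N d u v w i₀ hD hm hd hS hP hmin hPA
  obtain ⟨n, σ, hnN, hout, hne, h0, hmem, hmono, hsurj, hsum⟩ := sorted_enum d
    (Finset.univ.filter fun j => PresN Ω u j) i₀ (by simpa using hP) hmin
  have hpres : ∀ k, k ≤ n → PresN Ω u (σ k) := fun k hk => by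
    have := hmem k hk
    simpa using this
  have hsumu : ∀ t, 0 ≤ t → ∀ x ∈ closure Ω,
      ∑ j ∈ Finset.range (n + 1), u (σ j) t x = ∑ j, u j t x := by
    intro t ht x hx
    rw [hsum fun j => u j t x]
    refine Finset.sum_subset (Finset.subset_univ _) fun j _ hj => ?_
    have hj' : ¬ PresN Ω u j := by simpa using hj
    exact ((hPA j).resolve_left hj') t ht x hx
  refine ⟨n, σ, hnN, hout, hne, h0, ⟨hd _, ?_, hmono⟩, ⟨hD, hm, ?_, ?_⟩, ?_⟩
  · intro hn
    show d (σ 0) < d (σ 1)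
    rw [h0]
    exact hmin _ (hne 1 le_rfl hn)
  · intro i hi
    have hE := hS.evo (σ i)
    refine ⟨hE.cz, hE.cg, hE.cH, ?_, hE.dx, hE.dxx, ?_, hE.neu⟩
    · refine hE.cz'.congr ?_
      rintro ⟨t, x⟩ ⟨ht, hx⟩
      have ht' : 0 < t := ht
      show d (σ i) * tr (w (σ i) t x) +
        u (σ i) t x * (m x - ∑ j ∈ Finset.range (n + 1), u (σ j) t x) = _
      rw [hsumu t ht'.le x hx]
    · intro t ht x hx
      have h2 := hE.dt t ht x hx
      show HasDerivAt (fun s => u (σ i) s x) (d (σ i) * tr (w (σ i) t x) +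
        u (σ i) t x * (m x - ∑ j ∈ Finset.range (n + 1), u (σ j) t x)) t
      rw [hsumu t ht.le x hx]
      exact h2
  · intro i hi t ht x hx
    exact hpres i hi t ht x hx
  · intro j hj
    rcases hPA j with h4 | h4
    · right
      obtain ⟨k, hk, hk'⟩ := hsurj j (by simpa using h4)
      refine ⟨k, ?_, hk, hk'⟩
      rcases Nat.eq_zero_or_pos k with h5 | h5
      · exact absurd (by rw [← hk', h5, h0]) hj
      · exact h5
    · exact Or.inl h4

end Pool.Agent.Lib.MP_4fbe7c_an.ND.H19
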