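import Pool.Agent.Lib.MP_4fbe7c_an.ND.Iface
import Pool.Agent.Lib.MP_4fbe7c_an.ND.Base

/-!
Module SUP of project ND (helper19): a Lipschitz function with small integral is small.
-/

set_option autoImplicit false

open Set MeasureTheory Metric Topology

namespace Pool.Agent.Lib.MP_4fbe7c_an.ND.H19

open Pool.Agent.Lib.MP_4fbe7c_an.UL Pool.Agent.Lib.MP_4fbe7c_an.ND

variable {p : ℕ} {Ω : Set (Eu p)} {q : Eu p → ℝ}

/-- Balls centred in the closure meet `Ω` in a set of volume bounded below. -/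
theorem ball_inter (hD : Dom Ω q) {r : ℝ} (hr : 0 < r) :
    ∃ m : ℝ, 0 < m ∧ ∀ x ∈ closure Ω, m ≤ volume.real (ball x r ∩ Ω) := by
  classical
  obtain ⟨t, ht, hcov⟩ := hD.isCompact.elim_nhds_subcover (fun x => ball x (r / 2))
    (fun x _ => ball_mem_nhds x (half_pos hr))
  have hfin : ∀ x : Eu p, ∀ s : ℝ, volume (ball x s ∩ Ω) ≠ ⊤ := fun x s =>
    ((measure_mono inter_subset_right).trans_lt hD.volume_lt_top).ne
  have hpos : ∀ c ∈ closure Ω, 0 < volume.real (ball c (r / 2) ∩ Ω) := by
    intro c hc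
    have hne : (ball c (r / 2) ∩ Ω).Nonempty := by
      obtain ⟨y, hy, hyd⟩ := Metric.mem_closure_iff.mp hc (r / 2) (half_pos hr)
      exact ⟨y, by rw [mem_ball, dist_comm]; exact hyd, hy⟩
    have hop : IsOpen (ball c (r / 2) ∩ Ω) := isOpen_ball.inter hD.isOpen
    exact ENNReal.toReal_pos (hop.measure_pos volume hne).ne' (hfin c _)
  obtain ⟨x₀, hx₀⟩ := hD.closure_nonempty
  have hne : t.Nonempty := by
    have := hcov hx₀
    rw [mem_iUnion₂] at this
    obtain ⟨c, hc, -⟩ := this
    exact ⟨c, hc⟩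
  obtain ⟨c₀, hc₀, hmin⟩ := t.exists_min_image
    (fun c => volume.real (ball c (r / 2) ∩ Ω)) hne
  refine ⟨volume.real (ball c₀ (r / 2) ∩ Ω), hpos c₀ (ht c₀ hc₀), ?_⟩
  intro x hx
  have h1 := hcov hx
  rw [mem_iUnion₂] at h1
  obtain ⟨c, hc, hxc⟩ := h1
  refine (hmin c hc).trans ?_
  apply measureReal_mono _ (hfin x r)
  intro y hy
  refine ⟨?_, hy.2⟩
  have h2 := mem_ball.mp hy.1
  have h3 := mem_ball.mp hxc
  rw [mem_ball]
  calc dist y x ≤ dist y c + dist c x := dist_triangle _ _ _
    _ < r / 2 + r / 2 := add_lt_add h2 (by rw [dist_comm]; exact h3)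
    _ = r := by ring

/-- SUP: a Lipschitz function with small integral is small. -/
theorem sup_st : SupStatement := by
  intro p Ω q K η hD hη
  set K' : ℝ := |K| + 1 with hK'
  have hK0 : 0 < K' := by positivity
  have hKK : K ≤ K' := (le_abs_self K).trans (by linarith)
  set r : ℝ := η / (2 * K') with hr
  have hr0 : 0 < r := by positivity
  obtain ⟨m, hm0, hm⟩ := ball_inter hD hr0
  refine ⟨η / 2 * m, by positivity, ?_⟩
  intro f hf hint x hx
  by_contra hcon
  have hcon' : η ≤ |f x| := not_lt.mp hcon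
  have hcont : ContinuousOn f (closure Ω) := by
    have : LipschitzOnWith (Real.toNNReal K') f (closure Ω) := by
      apply LipschitzOnWith.of_dist_le_mul
      intro a ha b hb
      rw [Real.dist_eq, dist_eq_norm, Real.coe_toNNReal _ hK0.le]
      exact (hf a ha b hb).trans (mul_le_mul_of_nonneg_right hKK (norm_nonneg _))
    exact this.continuousOn
  have hio : IntegrableOn (fun y => |f y|) Ω := hD.integrableOn hcont.abs
  have hsub : ball x r ∩ Ω ⊆ Ω := inter_subset_right
  have hfin : volume (ball x r ∩ Ω) ≠ ⊤ :=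
    ((measure_mono inter_subset_right).trans_lt hD.volume_lt_top).ne
  have hms : MeasurableSet (ball x r ∩ Ω) := measurableSet_ball.inter hD.measurableSet
  have hlow : ∀ y ∈ ball x r ∩ Ω, η / 2 ≤ |f y| := by
    intro y hy
    have h1 := hf x hx y (subset_closure hy.2)
    have h2 : ‖x - y‖ < r := by
      have := mem_ball.mp hy.1
      rwa [dist_comm, dist_eq_norm] at this
    have h3 : K * ‖x - y‖ ≤ K' * r :=
      (mul_le_mul_of_nonneg_right hKK (norm_nonneg _)).trans
        (mul_le_mul_of_nonneg_left h2.le hK0.le)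
    have h4 : K' * r = η / 2 := by rw [hr]; field_simp
    have h5 : |f x| - |f y| ≤ |f x - f y| := abs_sub_abs_le_abs_sub _ _
    linarith
  have h1 : η / 2 * m ≤ ∫ y in ball x r ∩ Ω, |f y| := by
    have h2 : ∫ _y in ball x r ∩ Ω, η / 2 ≤ ∫ y in ball x r ∩ Ω, |f y| := by
      apply setIntegral_mono_on _ (hio.mono_set hsub) hms hlow
      exact integrableOn_const hfin
    have h3 : ∫ _y in ball x r ∩ Ω, η / 2 = volume.real (ball x r ∩ Ω) * (η / 2) := by
      rw [setIntegral_const, smul_eq_mul]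
    rw [h3] at h2
    refine le_trans ?_ h2
    rw [mul_comm]
    exact mul_le_mul_of_nonneg_right (hm x hx) (by positivity)
  have h4 : ∫ y in ball x r ∩ Ω, |f y| ≤ ∫ y in Ω, |f y| :=
    setIntegral_mono_set hio (Filter.Eventually.of_forall fun _ => abs_nonneg _)
      (HasSubset.Subset.eventuallyLE hsub)
  linarith

end Pool.Agent.Lib.MP_4fbe7c_an.ND.H19
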